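import Mathlib
import Pool.Agent.Y851.DK.Stm2

/-!
# DK-GCD: few pairs of elements of a dense set have a large greatest common divisor
-/

set_option autoImplicit false

namespace Pool.Agent.Y363.DK

open Finset Pool.Agent.Y851.DK

/-- the pairs with a large greatest common divisor -/
theorem big_card {Q : ℝ} {A : Finset ℕ} {G : ℕ} (hG : G ≠ 0)
    (hA : ∀ a ∈ A, 1 ≤ a ∧ (a : ℝ) ≤ Q) (hQ : 0 ≤ Q) :
    (((A ×ˢ A).filter (fun x : ℕ × ℕ => G < Nat.gcd x.1 x.2)).card : ℝ) ≤ Q ^ 2 / G := by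
  have hG0 : (0 : ℝ) < G := by exact_mod_cast Nat.pos_of_ne_zero hG
  set N := ⌊Q⌋₊ with hN
  have hNQ : (N : ℝ) ≤ Q := Nat.floor_le hQ
  have hAN : ∀ a ∈ A, 1 ≤ a ∧ a ≤ N := fun a ha => ⟨(hA a ha).1, Nat.le_floor (hA a ha).2⟩
  have h1 : (A ×ˢ A).filter (fun x : ℕ × ℕ => G < Nat.gcd x.1 x.2) ⊆
      (Ioc G N).biUnion (fun g => ((Ioc 0 N).filter (fun x => g ∣ x)) ×ˢ
        ((Ioc 0 N).filter (fun x => g ∣ x))) := by
    intro x hx
    obtain ⟨hx1, hx2⟩ := mem_filter.1 hx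
    obtain ⟨ha, hb⟩ := mem_product.1 hx1
    obtain ⟨ha1, ha2⟩ := hAN _ ha
    obtain ⟨hb1, hb2⟩ := hAN _ hb
    refine mem_biUnion.2 ⟨Nat.gcd x.1 x.2, ?_, ?_⟩
    · exact mem_Ioc.2 ⟨hx2, (Nat.gcd_le_left _ ha1).trans ha2⟩
    · exact mem_product.2 ⟨mem_filter.2 ⟨mem_Ioc.2 ⟨ha1, ha2⟩, Nat.gcd_dvd_left _ _⟩,
        mem_filter.2 ⟨mem_Ioc.2 ⟨hb1, hb2⟩, Nat.gcd_dvd_right _ _⟩⟩
  have h2 : (((A ×ˢ A).filter (fun x : ℕ × ℕ => G < Nat.gcd x.1 x.2)).card : ℝ) ≤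
      ∑ g ∈ Ioc G N, (Q ^ 2 * ((g : ℝ) ^ 2)⁻¹) := by
    have h3 := (card_le_card h1).trans card_biUnion_le
    calc (((A ×ˢ A).filter (fun x : ℕ × ℕ => G < Nat.gcd x.1 x.2)).card : ℝ)
        ≤ ((∑ g ∈ Ioc G N, (((Ioc 0 N).filter (fun x => g ∣ x)) ×ˢ
        ((Ioc 0 N).filter (fun x => g ∣ x))).card : ℕ) : ℝ) := by exact_mod_cast h3
      _ ≤ ∑ g ∈ Ioc G N, (Q ^ 2 * ((g : ℝ) ^ 2)⁻¹) := by
        push_cast
        apply sum_le_sum
        intro g hg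
        rw [card_product, Nat.Ioc_filter_dvd_card_eq_div]
        push_cast
        have hg0 : (0 : ℝ) < g := by
          exact_mod_cast (Nat.zero_le G).trans_lt (mem_Ioc.1 hg).1
        have h4 : ((N / g : ℕ) : ℝ) ≤ Q / g :=
          Nat.cast_div_le.trans (div_le_div_of_nonneg_right hNQ hg0.le)
        have h5 : (0 : ℝ) ≤ ((N / g : ℕ) : ℝ) := Nat.cast_nonneg _
        calc ((N / g : ℕ) : ℝ) * ((N / g : ℕ) : ℝ) ≤ Q / g * (Q / g) := by gcongr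
          _ = Q ^ 2 * ((g : ℝ) ^ 2)⁻¹ := by
            field_simp
  rw [← mul_sum] at h2
  rcases le_or_gt G N with hGN | hGN
  · have h6 : ∑ g ∈ Ioc G N, ((g : ℝ) ^ 2)⁻¹ ≤ (G : ℝ)⁻¹ - (N : ℝ)⁻¹ :=
      sum_Ioc_inv_sq_le_sub hG hGN
    have h7 : (0 : ℝ) ≤ (N : ℝ)⁻¹ := by positivity
    calc _ ≤ Q ^ 2 * ∑ g ∈ Ioc G N, ((g : ℝ) ^ 2)⁻¹ := h2
      _ ≤ Q ^ 2 * (G : ℝ)⁻¹ := by
        apply mul_le_mul_of_nonneg_left _ (sq_nonneg _)
        linarith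
      _ = Q ^ 2 / G := by rw [div_eq_mul_inv]
  · rw [Ioc_eq_empty (by omega), sum_empty, mul_zero] at h2
    exact h2.trans (by positivity)

/-- DK-GCD -/
theorem t_GCD : P_GCD := by
  intro f δ hf hδ
  refine ⟨⌈2 / (f * δ ^ 2)⌉₊ + 1, fun Q A hA hc hor => ?_⟩
  set G := ⌈2 / (f * δ ^ 2)⌉₊ + 1 with hG
  have hG1 : 2 / (f * δ ^ 2) ≤ (G : ℝ) := by
    refine (Nat.le_ceil _).trans ?_
    rw [hG]
    push_cast
    linarith
  have hA0 : (0 : ℝ) < A.card := lt_of_lt_of_le (by positivity) hc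
  have hd : (A.card : ℝ) ≤ f / 2 * (A.card : ℝ) ^ 2 := by
    rw [div_le_iff₀ hf] at hc
    nlinarith
  have hdiag : (((A ×ˢ A).filter (fun x : ℕ × ℕ => x.1 = x.2)).card : ℝ) ≤ A.card := by
    have h1 : ((A ×ˢ A).filter (fun x : ℕ × ℕ => x.1 = x.2)).card ≤ A.card := by
      refine card_le_card_of_injOn (fun x => x.1) (fun x hx => ?_) (fun x hx y hy he => ?_)
      · exact (mem_product.1 (mem_filter.1 hx).1).1
      · have e1 := (mem_filter.1 hx).2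
        have e2 := (mem_filter.1 hy).2
        have he' : x.1 = y.1 := he
        exact Prod.ext he' (by rw [← e1, ← e2, he'])
    exact_mod_cast h1
  rcases hor with hdense | hprime
  · have hQ0 : 0 ≤ Q := by
      obtain ⟨a, ha⟩ : A.Nonempty := card_pos.1 (by exact_mod_cast hA0)
      exact (Nat.cast_nonneg a).trans (hA a ha).2
    have hbig := big_card (Nat.succ_ne_zero ⌈2 / (f * δ ^ 2)⌉₊) hA hQ0
    have hb2 : Q ^ 2 / (G : ℝ) ≤ f / 2 * (A.card : ℝ) ^ 2 := by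
      have hG0 : (0 : ℝ) < G := lt_of_lt_of_le (by positivity) hG1
      rw [div_le_iff₀ hG0]
      rw [div_le_iff₀ (by positivity)] at hG1
      have h3 : (δ * Q) ^ 2 ≤ (A.card : ℝ) ^ 2 := by
        have : 0 ≤ δ * Q := by positivity
        gcongr
      have h4 : 2 * Q ^ 2 ≤ G * f * (δ * Q) ^ 2 := by
        have := mul_le_mul_of_nonneg_right hG1 (sq_nonneg Q)
        calc 2 * Q ^ 2 ≤ G * (f * δ ^ 2) * Q ^ 2 := this
          _ = G * f * (δ * Q) ^ 2 := by ring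
      have h5 : G * f * (δ * Q) ^ 2 ≤ G * f * (A.card : ℝ) ^ 2 :=
        mul_le_mul_of_nonneg_left h3 (by positivity)
      linarith
    have hu : ((A ×ˢ A).filter (fun x : ℕ × ℕ => x.1 = x.2 ∨ G < Nat.gcd x.1 x.2)).card ≤
        ((A ×ˢ A).filter (fun x : ℕ × ℕ => x.1 = x.2)).card +
        ((A ×ˢ A).filter (fun x : ℕ × ℕ => G < Nat.gcd x.1 x.2)).card := by
      rw [filter_or]
      exact card_union_le _ _
    have hu' : (((A ×ˢ A).filter (fun x : ℕ × ℕ => x.1 = x.2 ∨ G < Nat.gcd x.1 x.2)).card : ℝ) ≤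
        (((A ×ˢ A).filter (fun x : ℕ × ℕ => x.1 = x.2)).card : ℝ) +
        (((A ×ˢ A).filter (fun x : ℕ × ℕ => G < Nat.gcd x.1 x.2)).card : ℝ) := by
      exact_mod_cast hu
    have hbig' : (((A ×ˢ A).filter (fun x : ℕ × ℕ => G < Nat.gcd x.1 x.2)).card : ℝ) ≤
        Q ^ 2 / (G : ℝ) := hbig
    linarith
  · have hsub : (A ×ˢ A).filter (fun x : ℕ × ℕ => x.1 = x.2 ∨ G < Nat.gcd x.1 x.2) ⊆
        (A ×ˢ A).filter (fun x : ℕ × ℕ => x.1 = x.2) := by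
      intro x hx
      obtain ⟨hx1, hx2⟩ := mem_filter.1 hx
      refine mem_filter.2 ⟨hx1, ?_⟩
      rcases hx2 with h | h
      · exact h
      · by_contra hne
        obtain ⟨ha, hb⟩ := mem_product.1 hx1
        have hco := (Nat.coprime_primes (hprime _ ha) (hprime _ hb)).2 hne
        rw [Nat.coprime_iff_gcd_eq_one.1 hco] at h
        omega
    have h1 : (((A ×ˢ A).filter (fun x : ℕ × ℕ => x.1 = x.2 ∨ G < Nat.gcd x.1 x.2)).card : ℝ) ≤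
        (((A ×ˢ A).filter (fun x : ℕ × ℕ => x.1 = x.2)).card : ℝ) := by
      exact_mod_cast card_le_card hsub
    have h2 : 0 ≤ f / 2 * (A.card : ℝ) ^ 2 := by positivity
    linarith

end Pool.Agent.Y363.DK
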